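import Mathlib
import Pool.Agent.Helper47.Zero.Defs

/-!
# Standard properties of Chow groups
-/

universe u v w

open CategoryTheory AlgebraicGeometry Limits

namespace Pool.Agent.Helper47.VG

open Pool.Agent.Helper10 Pool.Agent.Helper10.SmProjVar Pool.Agent.Helper47.Chow
open Pool.Agent.Helper47.Zero

noncomputable section

variable {K : Type u} [Field K]

/-- `g` is an automorphism of the scheme `X` over the automorphism `b` of `Spec K`. -/
def IsSemi (X : SmProjVar K) (g : X.toOver.left ⟶ X.toOver.left)
    (b : Spec (CommRingCat.of K) ⟶ Spec (CommRingCat.of K)) : Prop :=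
  IsIso g ∧ IsIso b ∧ g ≫ X.toOver.hom = X.toOver.hom ≫ b

/-- The class of the image of a cycle: the subvariety with generic point `x` goes to the one with
generic point `g x`. -/
def imgCls (X : SmProjVar K) (g : X.toOver.left ⟶ X.toOver.left) (z : QCycles X) : CH X :=
  cls X (Finsupp.mapDomain (fun x : X.Pt => img g x) z)

variable {L : Type v} [Field L] [CharZero L] {W : WeilCohomology.{u, v, w} K L}

/-- The intersection product, pull-back, push-forward and homological triviality are compatible
with semilinear automorphisms. -/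
structure IsNatural (C : ChowTheory W) : Prop where
  mul : ∀ (X : SmProjVar K) (g b), IsSemi X g b → ∀ x y z : QCycles X,
    C.ops.mul X (cls X x) (cls X y) = cls X z →
      C.ops.mul X (imgCls X g x) (imgCls X g y) = imgCls X g z
  pull : ∀ (X Y : SmProjVar K) (g h b), IsSemi X g b → IsSemi Y h b →
    ∀ f : X.toOver ⟶ Y.toOver, f.left ≫ h = g ≫ f.left → ∀ (y : QCycles Y) (x : QCycles X),
      C.ops.pull f (cls Y y) = cls X x → C.ops.pull f (imgCls Y h y) = imgCls X g x
  push : ∀ (X Y : SmProjVar K) (g h b), IsSemi X g b → IsSemi Y h b →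
    ∀ f : X.toOver ⟶ Y.toOver, f.left ≫ h = g ≫ f.left → ∀ (x : QCycles X) (y : QCycles Y),
      C.ops.push f (cls X x) = cls Y y → C.ops.push f (imgCls X g x) = imgCls Y h y
  cl : ∀ (X : SmProjVar K) (g b), IsSemi X g b → ∀ z : QCycles X, C.ops.cl X (cls X z) = 0 →
    C.ops.cl X (imgCls X g z) = 0

/-- A correspondence of degree zero between `D` and `D'` which acts as zero on `H^1` kills the
homologically trivial divisor classes. -/
def HasPicards (C : ChowTheory W) : Prop :=
  ∀ D D' : SmProjVar K, ∀ γ ∈ CHi (D.prod D') D.dim, (∀ x, InDeg W 1 x → ∀ y : W.H D',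
      W.tr (D.prod D') (W.pull (fst D D') x * C.ops.cl _ γ * W.pull (snd D D') y) = 0) →
    ∀ a ∈ CHi D 1, C.ops.cl D a = 0 → C.act γ a = 0

/-- A homologically trivial divisor class on `D × D'` is the sum of pull-backs of divisor classes
of `D` and `D'`. -/
def HasSeesaws (C : ChowTheory W) : Prop :=
  ∀ D D' : SmProjVar K, ∀ g ∈ CHi (D.prod D') 1, C.ops.cl _ g = 0 →
    ∃ a ∈ CHi D 1, ∃ b ∈ CHi D' 1, g = C.ops.pull (fst D D') a + C.ops.pull (snd D D') b

/-- Further standard properties of Chow groups: the operations are compatible with semilinear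
automorphisms; the pull-back of the class of a subvariety is supported on its inverse image,
positively at the components of the expected dimension; homologically trivial divisor classes on
`D × D'` are sums of pull-backs from `D` and `D'`; and the action of correspondences on them is
determined by the action on `H^1`. -/
structure IsStandard (C : ChowTheory W) : Prop where
  natural : IsNatural C
  support : HasSupport C
  seesaw : HasSeesaws C
  picard : HasPicards C

/-- The set of the exterior products of classes of `X` in `CH^d(X × X)`, `d = dim X`, and of the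
compositions of `b ∈ CH^{d - t}(X × D)` and `a ∈ CH^{dim D + t}(D × X)`, for arbitrary `D`. -/
def LevelSet (C : ChowTheory W) (X : SmProjVar K) (t : ℕ) : Set (CH (X.prod X)) :=
  {x | (∃ i j, i + j = X.dim ∧ ∃ b ∈ CHi X j, ∃ a ∈ CHi X i,
      C.ops.mul (X.prod X) (C.ops.pull (fst X X) b) (C.ops.pull (snd X X) a) = x) ∨
    ∃ D : SmProjVar K, ∃ e, e + t = X.dim ∧
      ∃ b ∈ CHi (X.prod D) e, ∃ a ∈ CHi (D.prod X) (D.dim + t), C.comp b a = x}

/-- `X` has level `t`: its diagonal is a combination of elements of `LevelSet C X t`, that is, of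
exterior products of classes of `X` and of compositions of `b ∈ CH^{d - t}(X × D)` and
`a ∈ CH^{dim D + t}(D × X)`, for arbitrary `D`.  For `t = 0` this is no condition. -/
def HasLevel (C : ChowTheory W) (X : SmProjVar K) (t : ℕ) : Prop :=
  C.Δ X ∈ Submodule.span ℚ (LevelSet C X t)

/-- `M` has level `s` modulo nilpotents: its diagonal is a combination of elements of
`LevelSet C M s` and of compositions of correspondences `M → V → M`, where the homologically
trivial self-correspondences of `V` form a nilpotent ring. -/
def HasLevelMod (C : ChowTheory W) (M : SmProjVar K) (s : ℕ) : Prop :=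
  C.Δ M ∈ Submodule.span ℚ (LevelSet C M s ∪
    {x | ∃ V : SmProjVar K, NilRing C V ∧ ∃ e e', e + e' = M.dim + V.dim ∧
      ∃ p ∈ CHi (M.prod V) e, ∃ q ∈ CHi (V.prod M) e', C.comp p q = x})

/-- The cohomology of `X` in the degrees different from `dim X` is spanned by the classes of
algebraic cycles. -/
def IsAlgOff (C : ChowTheory W) (X : SmProjVar K) : Prop :=
  ∀ k, k ≠ X.dim → ∀ x, InDeg W k x → x ∈ Submodule.span L {z | ∃ i, 2 * i = k ∧
    ∃ a ∈ CHi X i, C.ops.cl X a = z}

/-- All Chow-Künneth decompositions of `X` satisfy Murre's conjecture (D) in codimension `i`. -/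
def MurreDAll (C : ChowTheory W) (X : SmProjVar K) (i : ℕ) : Prop :=
  ∀ π, IsCK C X π → C.MurreD X π i

end

end Pool.Agent.Helper47.VG
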