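import Mathlib
import Pool.Agent.Helper47.Desc.Defs
import Pool.Agent.Helper97.SA.St
import Pool.Agent.Helper47.VG.Std

/-!
# The light definitions imply the old ones
-/

universe u v w

open CategoryTheory AlgebraicGeometry Limits

namespace Pool.Agent.Helper47.VG

open Pool.Agent.Helper10 Pool.Agent.Helper10.SmProjVar Pool.Agent.Helper47.Chow
open Pool.Agent.Helper47.Desc Pool.Agent.Helper47.Zero Pool.Agent.Helper97.SA

variable {K : Type u} [Field K]

lemma isSemi_of (X : SmProjVar K) (g : SemiAut X) : IsSemi X g.sch g.base :=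
  ⟨inferInstance, inferInstance, g.sch_hom⟩

lemma imgCls_eq (X : SmProjVar K) (g : SemiAut X) (z : QCycles X) :
    imgCls X g.sch z = g.chow (cls X z) := rfl

lemma exists_cls {X : SmProjVar K} (a : CH X) : ∃ z : QCycles X, cls X z = a :=
  Submodule.Quotient.mk_surjective _ a

variable {L : Type v} [Field L] [CharZero L] {W : WeilCohomology.{u, v, w} K L}
  {C : ChowTheory W}

theorem isEquivariant_of (h : IsNatural C) : IsEquivariant C where
  mul X g a b := by
    obtain ⟨x, rfl⟩ := exists_cls a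
    obtain ⟨y, rfl⟩ := exists_cls b
    obtain ⟨z, hz⟩ := exists_cls (C.ops.mul X (cls X x) (cls X y))
    have h1 := h.mul X g.sch g.base (isSemi_of X g) x y z hz.symm
    rw [imgCls_eq, imgCls_eq, imgCls_eq] at h1
    rw [h1, hz]
  pull {X Y} g g' f hb hf a := by
    obtain ⟨y, rfl⟩ := exists_cls a
    obtain ⟨x, hx⟩ := exists_cls (C.ops.pull f (cls Y y))
    have h2 : IsSemi Y g'.sch g.base := hb ▸ isSemi_of Y g'
    have h1 := h.pull X Y g.sch g'.sch g.base (isSemi_of X g) h2 f hf y x hx.symm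
    rw [imgCls_eq, imgCls_eq] at h1
    rw [h1, hx]
  push {X Y} g g' f hb hf a := by
    obtain ⟨x, rfl⟩ := exists_cls a
    obtain ⟨y, hy⟩ := exists_cls (C.ops.push f (cls X x))
    have h2 : IsSemi Y g'.sch g.base := hb ▸ isSemi_of Y g'
    have h1 := h.push X Y g.sch g'.sch g.base (isSemi_of X g) h2 f hf x y hy.symm
    rw [imgCls_eq, imgCls_eq] at h1
    rw [h1, hy]
  cl X g a h0 := by
    obtain ⟨z, rfl⟩ := exists_cls a
    exact h.cl X g.sch g.base (isSemi_of X g) z h0

theorem decomposes_of {M : SmProjVar K} {s : ℕ} (h : HasLevelMod C M s) :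
    Decomposes C M s := by
  refine Submodule.span_mono ?_ h
  rintro x ((⟨i, j, hij, b, hb, a, ha, rfl⟩ | ⟨D, e, he, b, hb, a, ha, rfl⟩) |
    ⟨V, hV, e, e', he, p, hp, q, hq, rfl⟩)
  · exact Or.inl (Or.inl ⟨i, j, hij, b, hb, a, ha, rfl⟩)
  · exact Or.inr ⟨D, e, he, b, hb, a, ha, rfl⟩
  · exact Or.inl (Or.inr ⟨V, hV, e, e', he, p, hp, q, hq, rfl⟩)

end Pool.Agent.Helper47.VG
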