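import Mathlib
import Pool.Agent.Helper97.SA.Small
import Pool.Agent.Helper47.Chow.OffMiddle
import Pool.Agent.Helper47.Zero.Bridge
import Pool.Agent.Helper47.VG.Std
import Pool.Agent.Helper97.SA.St

/-!
# Murre's conjecture (D) in small codimensions
-/

universe u v w

open CategoryTheory AlgebraicGeometry Limits

namespace Pool.Agent.Helper47.VG

open Pool.Agent.Helper10 Pool.Agent.Helper10.SmProjVar Pool.Agent.Helper47.Chow
open Pool.Agent.Helper47.Zero Pool.Agent.Helper97.SA

variable {K : Type u} [Field K] {L : Type v} [Field L] [CharZero L]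
  {W : WeilCohomology.{u, v, w} K L} {C : ChowTheory W} {X : SmProjVar K}

lemma hasLevel_zero : HasLevel C X 0 := by
  have h : C.Δ X = C.comp (C.Δ X) (C.Δ X) := by rw [C.comp_Δ]
  exact Submodule.subset_span (Or.inr ⟨X, X.dim, rfl, C.Δ X, Δ_mem C X, C.Δ X, Δ_mem C X, h.symm⟩)

lemma act_extProd_hom {b a : CH X} {i j : ℕ} (hij : i + j = X.dim) (hb : b ∈ CHi X j)
    (ha : a ∈ CHi X i) {l : ℕ} {z : CH X} (hz : z ∈ CHi X l) (h0 : C.cl X z = 0) :
    C.act (extProd C b a) z = 0 :=
  act_algProj_hom (C := C) hij (Submodule.subset_span ⟨b, hb, a, ha, rfl⟩) z hz h0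

/-- If all the compositions `b_m ∘ p ∘ a_k` kill the classes `b_k z`, then `p z = z` implies
`z = 0`. -/
theorem eq_zero_of_level (hP : HasPicards C) {t : ℕ} (ht : HasLevel C X t) {i : ℕ}
    (hi : i ≤ t + 1) {p : CH (X.prod X)} (hp : p ∈ CHi (X.prod X) X.dim)
    (hact : ∀ x ∈ W.gr X (2 * t + 1), i = t + 1 → hAct C p x = 0) {z : CH X} (hz : z ∈ CHi X i)
    (h0 : C.cl X z = 0) (hpz : C.act p z = z) : z = 0 := by
  -- the classes `b z`
  have hb0 : ∀ (D : SmProjVar K) (e : ℕ), e + t = X.dim → ∀ b ∈ CHi (X.prod D) e,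
      ∀ a ∈ CHi (D.prod X) (D.dim + t), ∀ y : CH X, y ∈ CHi X i → C.cl X y = 0 →
        (i ≤ t → C.act b y = 0) := by
    intro D e he b hb a _ y hy hy0 hit
    rcases Nat.lt_or_ge i t with h | h
    · exact act_eq_zero hb hy (by omega)
    · have h1 : C.act b y ∈ CHi D 0 := act_mem' C b hb y hy (by omega)
      exact Helper11.Murre.eq_zero_of_codim_zero C _ h1 (C.cl_act_of_left _ _ hy0)
  -- `b p a w = 0`
  have key : ∀ (D : SmProjVar K) (e : ℕ), e + t = X.dim → ∀ b ∈ CHi (X.prod D) e,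
      ∀ D' : SmProjVar K, ∀ a ∈ CHi (D'.prod X) (D'.dim + t), ∀ w ∈ CHi D' 1, C.cl D' w = 0 →
        i = t + 1 → C.act b (C.act p (C.act a w)) = 0 := by
    intro D e he b hb D' a ha w hw hw0 hit
    have h1 : C.comp a p ∈ CHi (D'.prod X) (D'.dim + t) := comp_mem' C a p ha hp (by omega)
    have h2 : C.comp (C.comp a p) b ∈ CHi (D'.prod D) D'.dim := comp_mem' C _ b h1 hb (by omega)
    have h3 : C.act (C.comp (C.comp a p) b) w = 0 := by
      refine hP D' D _ h2 (fun x hx y => ?_) w hw hw0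
      have h4 : hAct C a x ∈ W.gr X (2 * t + 1) := hAct_mem C a ha x hx (by omega)
      have h5 : hAct C (C.comp (C.comp a p) b) x = 0 := by
        rw [hAct_comp C _ b h1 hb (l := D'.dim) (by omega),
          hAct_comp C a p ha hp (l := D'.dim + t) (by omega), hact _ h4 hit, hAct_zero]
      have h6 := tr_hAct C (C.comp (C.comp a p) b) x y
      rw [h5, zero_mul, ChowTheory.tr_zero, pairH_apply] at h6
      exact h6.symm
    rwa [C.act_comp, C.act_comp] at h3
  -- `z` is a combination of classes `a w`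
  let T : Submodule ℚ (CH X) := Submodule.span ℚ {y | ∃ D : SmProjVar K,
    ∃ a ∈ CHi (D.prod X) (D.dim + t), ∃ w ∈ CHi D 1, C.cl D w = 0 ∧ i = t + 1 ∧ y = C.act a w}
  have hT : ∀ y : CH X, y ∈ CHi X i → C.cl X y = 0 → y ∈ T := by
    intro y hy hy0
    have h1 : ∀ x ∈ Submodule.span ℚ (LevelSet C X t), C.act x y ∈ T := by
      intro x hx
      refine Submodule.span_induction (p := fun x _ => C.act x y ∈ T) ?_ ?_ ?_ ?_ hx
      · rintro x (⟨i', j', hij, b, hb, a, ha, rfl⟩ | ⟨D, e, he, b, hb, a, ha, rfl⟩)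
        · have h2 : C.act (extProd C b a) y = 0 := act_extProd_hom hij hb ha hy hy0
          have h3 : C.act (C.ops.mul (X.prod X) (C.ops.pull (fst X X) b)
            (C.ops.pull (snd X X) a)) y = 0 := h2
          rw [h3]
          exact Submodule.zero_mem _
        · rw [C.act_comp]
          by_cases hit : i ≤ t
          · rw [hb0 D e he b hb a ha y hy hy0 hit, C.act_zero]
            exact Submodule.zero_mem _
          · have hit' : i = t + 1 := by omega
            refine Submodule.subset_span ⟨D, a, ha, C.act b y, ?_, ?_, hit', rfl⟩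
            · exact act_mem' C b hb y hy (by omega)
            · exact C.cl_act_of_left _ _ hy0
      · rw [C.act_zero']
        exact Submodule.zero_mem _
      · intro x x' _ _ hx hx'
        rw [C.act_add]
        exact Submodule.add_mem _ hx hx'
      · intro q x _ hx
        rw [C.act_smul']
        exact Submodule.smul_mem _ _ hx
    have h2 := h1 _ ht
    rwa [C.act_Δ] at h2
  -- the classes `b p y`, `y ∈ T`, are zero
  have hbT : ∀ (D : SmProjVar K) (e : ℕ), e + t = X.dim → ∀ b ∈ CHi (X.prod D) e,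
      ∀ y ∈ T, C.act b (C.act p y) = 0 := by
    intro D e he b hb y hy
    refine Submodule.span_induction (p := fun y _ => C.act b (C.act p y) = 0) ?_ ?_ ?_ ?_ hy
    · rintro _ ⟨D', a, ha, w, hw, hw0, hit, rfl⟩
      exact key D e he b hb D' a ha w hw hw0 hit
    · rw [C.act_zero, C.act_zero]
    · intro y y' _ _ hy hy'
      rw [C.act_map_add, C.act_map_add, hy, hy', add_zero]
    · intro q y _ hy
      rw [C.act_map_smul, C.act_map_smul, hy, smul_zero]
  have hbz : ∀ (D : SmProjVar K) (e : ℕ), e + t = X.dim → ∀ b ∈ CHi (X.prod D) e,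
      C.act b z = 0 := by
    intro D e he b hb
    have h1 := hbT D e he b hb z (hT z hz h0)
    rwa [hpz] at h1
  have h1 : ∀ x ∈ Submodule.span ℚ (LevelSet C X t), C.act x z = 0 := by
    intro x hx
    refine Submodule.span_induction (p := fun x _ => C.act x z = 0) ?_ ?_ ?_ ?_ hx
    · rintro x (⟨i', j', hij, b, hb, a, ha, rfl⟩ | ⟨D, e, he, b, hb, a, ha, rfl⟩)
      · exact act_extProd_hom hij hb ha hz h0
      · rw [C.act_comp, hbz D e he b hb, C.act_zero]
    · exact C.act_zero' z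
    · intro x x' _ _ hx hx'
      rw [C.act_add, hx, hx', add_zero]
    · intro q x _ hx
      rw [C.act_smul', hx, smul_zero]
  have h2 := h1 _ ht
  rwa [C.act_Δ] at h2

/-- All Chow-Künneth decompositions of `X` satisfy (D) in the codimensions `i ≤ t + 1`. -/
theorem murreD_of_level (hP : HasPicards C) {t : ℕ} (ht : HasLevel C X t)
    {π : ℕ → CH (X.prod X)} (hπ : C.IsCK X π) {i : ℕ} (hi : i ≤ t + 1) : C.MurreD X π i := by
  rw [murreD_iff hπ]
  intro a ha h0 l hl
  have h1 : C.act (π l) a ∈ CHi X i := C.act_mem _ (hπ.mem l) _ _ ha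
  have h2 : C.cl X (C.act (π l) a) = 0 := C.cl_act_of_left _ _ h0
  refine eq_zero_of_level hP ht hi (hπ.mem l) (fun x hx hit => ?_) h1 h2 ?_
  · exact IsCK.hAct_other hπ l (2 * t + 1) (by omega) x hx
  · rw [← C.act_comp, hπ.idem]

/-- If `H^{2 t + 1}(X) = 0`, there are no homologically trivial classes of codimension `≤ t + 1`. -/
theorem chHom_eq_zero_of_level (hP : HasPicards C) {t : ℕ} (ht : HasLevel C X t) {i : ℕ}
    (hi : i ≤ t + 1) (hX : i = t + 1 → ∀ x ∈ W.gr X (2 * t + 1), x = 0) {z : CH X}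
    (hz : z ∈ CHi X i) (h0 : C.cl X z = 0) : z = 0 :=
  eq_zero_of_level hP ht hi (Δ_mem C X)
    (fun x hx hit => by rw [hX hit x hx, hAct_zero]) hz h0 (C.act_Δ z)

theorem exists_isCK (hA : IsAlgOff C X) : ∃ π, IsCK C X π := by
  obtain ⟨π, hπ⟩ := (algebraicOffMiddle X (C := C) fun k hk x hx => hA k hk x hx).1
  exact ⟨π, isCK_iff.mpr hπ⟩

theorem murreD_all (h : Desc.NilHom C X) (hP : HasPicards C) {t : ℕ}
    (ht : t = 0 ∨ HasLevel C X t) (hd : X.dim ≤ 2 * t + 3)
    (hL : IsAlgOff C X ∨ HasLefschetz C X) (i : ℕ) : MurreDAll C X i := by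
  replace ht : HasLevel C X t := by
    rcases ht with rfl | ht
    · exact hasLevel_zero
    · exact ht
  rcases hL with hA | hL
  · have hA' : C.AlgebraicOffMiddle X := fun k hk x hx => hA k hk x hx
    intro π hπ
    refine (Helper47.Desc.offMiddle_of_nilHom h hA' i).2 (fun hi a ha h0 => ?_) π (isCK_iff.mp hπ)
    refine chHom_eq_zero_of_level hP ht (i := i) (by omega) (fun hit x hx => ?_) ha h0
    exact eq_zero_of_odd hA' _ (by omega) (by rw [Nat.not_even_iff_odd]; exact ⟨t, rfl⟩) x hx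
  · intro π hπ
    exact Helper11.Murre.murreD_of_half h hL (isCK_iff.mp hπ)
      (fun i' hi' => murreD_of_level hP ht (isCK_iff.mp hπ) (by omega)) i

end Pool.Agent.Helper47.VG
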