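import Mathlib
import Pool.Agent.Helper47.Zero.Defs

/-!
# Zero loci of generic sections
-/

universe u

open CategoryTheory AlgebraicGeometry Limits

namespace Pool.Agent.Helper47.VG

open Pool.Agent.Helper10 Pool.Agent.Helper10.SmProjVar Pool.Agent.Helper47.Zero

/-- `M`, with the projection `pM`, is the base change to `K` of the variety `M₀` over `F`, the
elements `a_l` of `K` are algebraically independent over `F`, and `X`, embedded by `j` in `M`, of
codimension `r`, is the zero locus of the section `∑ a_l s_l` of a vector bundle of rank `r`. -/
structure IsGenericZeroLocus {K : Type u} [Field K] {F : Type u} [Field F] [Algebra F K]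
    {M₀ : SmProjVar F} {r : ℕ} {I : Type} [Fintype I] (S : Sections M₀.toOver.left r I)
    (a : I → K) {X M : SmProjVar K} (pM : M.toOver.left ⟶ M₀.toOver.left)
    (j : X.toOver ⟶ M.toOver) : Prop where
  independent : AlgebraicIndependent F a
  baseChange : IsPullback pM M.toOver.hom M₀.toOver.hom (specMap F K)
  closed : IsClosedImmersion j.left
  zeroLocus : IsZeroLocus S a M₀.toOver.hom (specMap F K) (j.left ≫ pM) X.toOver.hom
  codim : M.dim = X.dim + r

end Pool.Agent.Helper47.VG
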