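import Mathlib
import Pool.Agent.Helper47.VG.Loc

/-!
# Very general zero loci
-/

universe u

open CategoryTheory AlgebraicGeometry Limits

namespace Pool.Agent.Helper47.VG

open Pool.Agent.Helper10 Pool.Agent.Helper10.SmProjVar Pool.Agent.Helper47.Zero

/-- `X`, embedded by `j` in `M`, is a very general zero locus: there are a subfield `F` of `K`,
sections `s_l` of a vector bundle on a model `M₀` of `M` over `F`, such that any two distinct
points of `M₀` impose independent conditions on the combinations of the `s_l`, and elements `a_l`
of `K`, algebraically independent over `F`, such that `X` is the zero locus of `∑ a_l s_l`. -/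
def IsVeryGeneral {K : Type u} [Field K] {X M : SmProjVar K} (j : X.toOver ⟶ M.toOver) : Prop :=
  ∃ (F : Type u) (_ : Field F) (_ : Algebra F K) (M₀ : SmProjVar F) (r : ℕ) (I : Type)
    (_ : Fintype I) (S : Sections M₀.toOver.left r I) (a : I → K)
    (pM : M.toOver.left ⟶ M₀.toOver.left), Separates S ∧ IsGenericZeroLocus S a pM j

end Pool.Agent.Helper47.VG
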