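import Mathlib
import Pool.Agent.Helper47.VG.Loc
import Pool.Agent.Helper47.VG.Std
import Pool.Agent.Helper11.PW.FinalDefs

/-!
# Very general zero loci for products
-/

universe u

open CategoryTheory AlgebraicGeometry Limits

namespace Pool.Agent.Helper47.VG

open Pool.Agent.Helper10 Pool.Agent.Helper10.SmProjVar Pool.Agent.Helper47.Zero
open Pool.Agent.Helper47.Chow

/-- `X`, embedded by `j` in `M`, is a very general zero locus for `n`: there are a subfield `F` of
`K`, sections `s_l` of a vector bundle on a model `M₀` of `M` over `F`, such that any at most `2 n`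
distinct points of `M₀` impose independent conditions on the combinations of the `s_l`, and
elements `a_l` of `K`, algebraically independent over `F`, such that `X` is the zero locus of
`∑ a_l s_l`; the semilinear automorphisms of `M` over `M₀` act trivially on `CH(M)`. -/
def IsVeryGeneralFor (n : ℕ) {K : Type u} [Field K] {X M : SmProjVar K}
    (j : X.toOver ⟶ M.toOver) : Prop :=
  ∃ (F : Type u) (_ : Field F) (_ : Algebra F K) (M₀ : SmProjVar F) (r : ℕ) (I : Type)
    (_ : Fintype I) (S : Sections M₀.toOver.left r I) (a : I → K)
    (pM : M.toOver.left ⟶ M₀.toOver.left), Helper11.Powers.Independent S (2 * n) ∧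
      (∀ g b, IsSemi M g b → g ≫ pM = pM → ∀ z : QCycles M, imgCls M g z = cls M z) ∧
      IsGenericZeroLocus S a pM j

end Pool.Agent.Helper47.VG
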