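import Mathlib
import Pool.Agent.Helper47.VG.Loc
import Pool.Agent.Helper47.Sym.Defs

/-!
# Very general zero loci with symmetries
-/

universe u

open CategoryTheory AlgebraicGeometry Limits

namespace Pool.Agent.Helper47.VG

open Pool.Agent.Helper10 Pool.Agent.Helper10.SmProjVar Pool.Agent.Helper47.Zero

/-- `X`, embedded by `j` in `M`, is a very general zero locus with the endomorphisms `f_i`: there
are a subfield `F` of `K`, sections `s_l` of a vector bundle on a model `M₀` of `M` over `F` and
elements `a_l` of `K`, algebraically independent over `F`, such that `X` is the zero locus of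
`∑ a_l s_l`, the `f_i` are compatible with morphisms `M₀ ⟶ M₀`, and two points `x`, `x'` of `X`
impose independent conditions on the combinations of the `s_l` unless `x = f_i(x')` for some
`i`. -/
def IsVeryGeneralUpTo {K : Type u} [Field K] {X M : SmProjVar K} (j : X.toOver ⟶ M.toOver)
    {Γ : Type} (f : Γ → (X.toOver ⟶ X.toOver)) : Prop :=
  ∃ (F : Type u) (_ : Field F) (_ : Algebra F K) (M₀ : SmProjVar F) (r : ℕ) (I : Type)
    (_ : Fintype I) (S : Sections M₀.toOver.left r I) (a : I → K)
    (pM : M.toOver.left ⟶ M₀.toOver.left), SeparatesUpTo S X (j.left ≫ pM) f ∧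
      (∀ i, ∃ f₀ : M₀.toOver.left ⟶ M₀.toOver.left,
        (f i).left ≫ j.left ≫ pM = (j.left ≫ pM) ≫ f₀) ∧ IsGenericZeroLocus S a pM j

end Pool.Agent.Helper47.VG
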